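import Pool.Agent.K7.H23.PT.Stm

/-!
Job TY, part Big, of project PT (MP_d88658_nt, helper23): almost all `D` have a large prime factor
modulo which `Δ` is not a square.
-/

set_option autoImplicit false

namespace Pool.Agent.K7.H99.BG

open Pool.Agent.K7.H23.PT Finset

/-- Turán's second moment. -/
theorem second (P : Finset ℕ) (hP : ∀ p ∈ P, p.Prime) (N z : ℕ) (hz : ∀ p ∈ P, p ≤ z)
    (hzN : z ≤ N) (hS0 : 0 < ∑ p ∈ P, (1 : ℝ) / p) :
    (((Ioc 0 N).filter (fun D => ∀ p ∈ P, ¬ p ∣ D)).card : ℝ) ≤ 3 * N / ∑ p ∈ P, (1 : ℝ) / p := by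
  set S : ℝ := ∑ p ∈ P, (1 : ℝ) / p with hS
  have hcard : (P.card : ℝ) ≤ N := by
    have h1 : P ⊆ Icc 1 z := by
      intro p hp
      rw [mem_Icc]
      exact ⟨(hP p hp).one_le, hz p hp⟩
    have h2 := card_le_card h1
    rw [Nat.card_Icc, Nat.add_sub_cancel] at h2
    exact_mod_cast h2.trans hzN
  set X : ℕ → ℝ := fun D => ∑ p ∈ P, if p ∣ D then (1 : ℝ) else 0 with hX
  have hcount : ∀ r : ℕ, 1 ≤ r → ∑ D ∈ Ioc 0 N, (if r ∣ D then (1 : ℝ) else 0) = ((N / r : ℕ) : ℝ) := by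
    intro r _
    rw [← Nat.Ioc_filter_dvd_card_eq_div, card_filter]
    push_cast
    rfl
  have h1 : ∑ D ∈ Ioc 0 N, X D = ∑ p ∈ P, ((N / p : ℕ) : ℝ) := by
    rw [hX, sum_comm]
    exact sum_congr rfl fun p hp => hcount p (hP p hp).one_le
  have h1' : N * S - N ≤ ∑ D ∈ Ioc 0 N, X D := by
    rw [h1]
    have h2 : ∀ p ∈ P, (N : ℝ) * (1 / p) - 1 ≤ ((N / p : ℕ) : ℝ) := by
      intro p hp
      have hp0 : (0 : ℝ) < p := by exact_mod_cast (hP p hp).pos
      have h3 : N < p * (N / p + 1) := Nat.lt_mul_div_succ N (hP p hp).pos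
      have h4 : (N : ℝ) < p * (((N / p : ℕ) : ℝ) + 1) := by exact_mod_cast h3
      have h5 : (N : ℝ) / p < ((N / p : ℕ) : ℝ) + 1 := by
        rw [div_lt_iff₀ hp0]; linarith
      rw [mul_one_div]
      linarith
    have h3 := sum_le_sum h2
    rw [sum_sub_distrib, ← mul_sum, sum_const, nsmul_eq_mul, mul_one] at h3
    linarith
  have h2 : ∑ D ∈ Ioc 0 N, X D ^ 2 ≤ N * S ^ 2 + N * S := by
    have h3 : ∀ D, X D ^ 2 = ∑ p ∈ P, ∑ q ∈ P, if p ∣ D ∧ q ∣ D then (1 : ℝ) else 0 := by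
      intro D
      rw [sq, hX, sum_mul_sum]
      refine sum_congr rfl fun p _ => sum_congr rfl fun q _ => ?_
      by_cases h4 : p ∣ D
      · by_cases h5 : q ∣ D
        · simp [h4, h5]
        · simp [h5]
      · simp [h4]
    rw [sum_congr rfl fun D _ => h3 D, sum_comm]
    have h4 : ∀ p ∈ P, ∑ D ∈ Ioc 0 N, ∑ q ∈ P, (if p ∣ D ∧ q ∣ D then (1 : ℝ) else 0) ≤
        N * S * (1 / p) + N * (1 / p) := by
      intro p hp
      rw [sum_comm]
      have hp0 : (0 : ℝ) < p := by exact_mod_cast (hP p hp).pos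
      have h5 : ∀ q ∈ P, ∑ D ∈ Ioc 0 N, (if p ∣ D ∧ q ∣ D then (1 : ℝ) else 0) ≤
          N * (1 / p) * (1 / q) + (if q = p then N * (1 / (p : ℝ)) else 0) := by
        intro q hq
        have hq0 : (0 : ℝ) < q := by exact_mod_cast (hP q hq).pos
        by_cases h6 : q = p
        · subst h6
          simp only [and_self, if_true]
          rw [hcount q (hP q hq).one_le]
          have h7 : ((N / q : ℕ) : ℝ) ≤ N / q := Nat.cast_div_le
          have h8 : (0 : ℝ) ≤ N / q * (1 / q) := by positivity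
          rw [show (N : ℝ) * (1 / q) = N / q by ring]
          linarith
        · rw [if_neg h6, add_zero]
          have h7 : ∀ D, (p ∣ D ∧ q ∣ D) ↔ p * q ∣ D := by
            intro D
            have hco : Nat.Coprime p q := (Nat.coprime_primes (hP p hp) (hP q hq)).2 (Ne.symm h6)
            exact ⟨fun h => hco.mul_dvd_of_dvd_of_dvd h.1 h.2,
              fun h => ⟨(Dvd.intro _ rfl).trans h, (Dvd.intro_left _ rfl).trans h⟩⟩
          simp only [h7]
          rw [hcount (p * q) (Nat.mul_pos (hP p hp).pos (hP q hq).pos)]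
          refine (Nat.cast_div_le (α := ℝ)).trans (le_of_eq ?_)
          push_cast
          field_simp
      refine (sum_le_sum h5).trans (le_of_eq ?_)
      rw [sum_add_distrib, sum_ite_eq' P p, if_pos hp, ← mul_sum, ← hS]
      ring
    refine (sum_le_sum h4).trans (le_of_eq ?_)
    rw [sum_add_distrib, ← mul_sum, ← mul_sum, ← hS]
    ring
  have h3 : S ^ 2 * (((Ioc 0 N).filter (fun D => ∀ p ∈ P, ¬ p ∣ D)).card : ℝ) ≤
      ∑ D ∈ Ioc 0 N, (X D - S) ^ 2 := by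
    have h4 : ∑ D ∈ (Ioc 0 N).filter (fun D => ∀ p ∈ P, ¬ p ∣ D), (X D - S) ^ 2 ≤
        ∑ D ∈ Ioc 0 N, (X D - S) ^ 2 :=
      sum_le_sum_of_subset_of_nonneg (filter_subset _ _) fun _ _ _ => sq_nonneg _
    refine le_trans (le_of_eq ?_) h4
    rw [sum_congr rfl (g := fun _ => S ^ 2), sum_const, nsmul_eq_mul, mul_comm]
    intro D hD
    rw [mem_filter] at hD
    have h5 : X D = 0 := by
      rw [hX]
      exact sum_eq_zero fun p hp => if_neg (hD.2 p hp)
    rw [h5]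
    ring
  have h4 : ∑ D ∈ Ioc 0 N, (X D - S) ^ 2 =
      ∑ D ∈ Ioc 0 N, X D ^ 2 - 2 * S * ∑ D ∈ Ioc 0 N, X D + N * S ^ 2 := by
    have h5 : ∀ D, (X D - S) ^ 2 = X D ^ 2 - 2 * S * X D + S ^ 2 := fun D => by ring
    rw [sum_congr rfl fun D _ => h5 D, sum_add_distrib, sum_sub_distrib, ← mul_sum, sum_const,
      Nat.card_Ioc, nsmul_eq_mul, Nat.sub_zero]
  rw [le_div_iff₀ hS0]
  have h5 : S ^ 2 * (((Ioc 0 N).filter (fun D => ∀ p ∈ P, ¬ p ∣ D)).card : ℝ) ≤ S * (3 * N) := by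
    have h6 : 2 * S * (N * S - N) ≤ 2 * S * ∑ D ∈ Ioc 0 N, X D :=
      mul_le_mul_of_nonneg_left h1' (by positivity)
    nlinarith
  have h6 : S * ((((Ioc 0 N).filter (fun D => ∀ p ∈ P, ¬ p ∣ D)).card : ℝ) * S) ≤ S * (3 * N) := by
    nlinarith
  exact le_of_mul_le_mul_left h6 hS0

open scoped Classical in
/-- the primes `p ≤ √N`, `p ^ n > N`, modulo which `Δ` is not a square -/
noncomputable def PP (Δ : ℤ) (n N : ℕ) : Finset ℕ :=
  (range (Nat.sqrt N + 1)).filter fun p => (p.Prime ∧ ¬ IsSquare ((Δ : ℤ) : ZMod p)) ∧ N < p ^ n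

open scoped Classical in
theorem sum_PP {Δ : ℤ} {C : ℝ} (hC : ∀ z : ℕ, 2 ≤ z →
    (|(∑ p ∈ (Finset.range (z + 1)).filter (fun p => p.Prime ∧ ¬ IsSquare ((Δ : ℤ) : ZMod p)),
      (1 : ℝ) / p) - Real.log (Real.log z) / 2| ≤ C)) (n : ℕ) (hn : 6 ≤ n) :
    ∃ N₀ : ℕ, ∀ N : ℕ, N₀ ≤ N →
      Real.log (n / 3) / 2 - 2 * C ≤ ∑ p ∈ PP Δ n N, (1 : ℝ) / p := by
  refine ⟨2 ^ n + 16, fun N hN => ?_⟩
  have hn0 : n ≠ 0 := by omega
  have hN16 : 16 ≤ N := (Nat.le_add_left _ _).trans hN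
  have h2N : 2 ^ n ≤ N := (Nat.le_add_right _ _).trans hN
  -- the integer part of the `n`-th root
  obtain ⟨w, hw1, hw2⟩ : ∃ w : ℕ, w ^ n ≤ N ∧ N < (w + 1) ^ n := by
    refine ⟨Nat.findGreatest (fun w => w ^ n ≤ N) N, ?_, ?_⟩
    · refine Nat.findGreatest_spec (P := fun w => w ^ n ≤ N) (m := 0) (Nat.zero_le _) ?_
      rw [zero_pow hn0]; exact Nat.zero_le _
    · by_contra h
      rw [not_lt] at h
      have h1 : Nat.findGreatest (fun w => w ^ n ≤ N) N + 1 ≤ N := by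
        refine le_trans ?_ h
        exact Nat.le_self_pow hn0 _
      have h2 := Nat.le_findGreatest (P := fun w => w ^ n ≤ N) h1 h
      omega
  have hw : 2 ≤ w := by
    by_contra h
    have h1 : w + 1 ≤ 2 := by omega
    have h2 : (w + 1) ^ n ≤ 2 ^ n := Nat.pow_le_pow_left h1 n
    omega
  set z := Nat.sqrt N with hz
  have hz2 : 4 ≤ z := by
    rw [hz, Nat.le_sqrt]; omega
  have hwz : w ≤ z := by
    rw [hz, Nat.le_sqrt']
    calc w ^ 2 ≤ w ^ n := Nat.pow_le_pow_right (by omega) (by omega)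
      _ ≤ N := hw1
  have hsplit : ∑ p ∈ (range (z + 1)).filter (fun p => p.Prime ∧ ¬ IsSquare ((Δ : ℤ) : ZMod p)),
      (1 : ℝ) / p = ∑ p ∈ (range (w + 1)).filter (fun p => p.Prime ∧ ¬ IsSquare ((Δ : ℤ) : ZMod p)),
      (1 : ℝ) / p + ∑ p ∈ PP Δ n N, (1 : ℝ) / p := by
    rw [← sum_union]
    · refine sum_congr ?_ fun _ _ => rfl
      ext p
      unfold PP
      rw [mem_union, mem_filter, mem_filter, mem_filter, mem_range, mem_range]
      constructor
      · rintro ⟨h1, h2⟩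
        by_cases h3 : N < p ^ n
        · exact Or.inr ⟨h1, h2, h3⟩
        · left
          refine ⟨?_, h2⟩
          by_contra h4
          have h5 : (w + 1) ^ n ≤ p ^ n := Nat.pow_le_pow_left (by omega) n
          omega
      · rintro (⟨h1, h2⟩ | ⟨h1, h2, _⟩)
        · exact ⟨by omega, h2⟩
        · exact ⟨h1, h2⟩
    · rw [disjoint_left]
      intro p hp hp'
      unfold PP at hp'
      rw [mem_filter, mem_range] at hp hp'
      have h5 : p ^ n ≤ w ^ n := Nat.pow_le_pow_left (by omega) n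
      omega
  have hA := hC z (by omega)
  have hB := hC w hw
  rw [abs_le] at hA hB
  have hlogN : Real.log N ≤ 3 * Real.log z := by
    have h1 : N < (z + 1) * (z + 1) := Nat.lt_succ_sqrt N
    have h2 : (z + 1) * (z + 1) ≤ z ^ 3 := by nlinarith
    have h3 : (N : ℝ) ≤ (z : ℝ) ^ 3 := by exact_mod_cast (h1.le.trans h2)
    have h4 : Real.log N ≤ Real.log ((z : ℝ) ^ 3) :=
      Real.log_le_log (by exact_mod_cast (by omega : 0 < N)) h3
    rwa [Real.log_pow] at h4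
  have hlogw : n * Real.log w ≤ Real.log N := by
    rw [← Real.log_pow]
    exact Real.log_le_log (by positivity) (by exact_mod_cast hw1)
  have hlw : 0 < Real.log w := Real.log_pos (by exact_mod_cast (by omega : 1 < w))
  have hlz : 0 < Real.log z := Real.log_pos (by exact_mod_cast (by omega : 1 < z))
  have hkey : Real.log (n / 3) ≤ Real.log (Real.log z) - Real.log (Real.log w) := by
    rw [← Real.log_div hlz.ne' hlw.ne']
    refine Real.log_le_log (by positivity) ?_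
    rw [le_div_iff₀ hlw]
    linarith
  linarith [hA.1, hB.2]

/-- **Job TY, part Big**: almost all `D` have a prime factor `p > N ^ (1 / n)` modulo which `Δ` is
not a square. -/
theorem big_all (hMQ : StMQ) (Δ : ℤ) (hΔ : ¬ IsSquare Δ) (ε : ℝ) (hε : 0 < ε) :
    ∃ n₀ : ℕ, 1 ≤ n₀ ∧ ∀ n : ℕ, n₀ ≤ n → ∃ N₀ : ℕ, ∀ N : ℕ, N₀ ≤ N →
      (Set.ncard {D : ℤ | D ≠ 0 ∧ |D| ≤ N ∧ ¬ Big Δ n N D} : ℝ) ≤ ε * N := by
  obtain ⟨C, hC⟩ := hMQ Δ hΔ
  obtain ⟨n₁, hn₁⟩ := exists_nat_ge (3 * Real.exp (2 * (6 / ε + 2 * C)))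
  refine ⟨max n₁ 6, by omega, fun n hn => ?_⟩
  obtain ⟨N₀, hN₀⟩ := sum_PP (fun z hz => (hC z hz).2) n ((le_max_right _ _).trans hn)
  refine ⟨N₀, fun N hN => ?_⟩
  classical
  have hS := hN₀ N hN
  have h1 : 6 / ε ≤ ∑ p ∈ PP Δ n N, (1 : ℝ) / p := by
    refine le_trans ?_ hS
    have h2 : 3 * Real.exp (2 * (6 / ε + 2 * C)) ≤ n :=
      hn₁.trans (by exact_mod_cast (le_max_left n₁ 6).trans hn)
    have h3 : 2 * (6 / ε + 2 * C) ≤ Real.log (n / 3) := by
      rw [Real.le_log_iff_exp_le (by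
        have := Real.exp_pos (2 * (6 / ε + 2 * C)); linarith)]
      linarith
    linarith
  have hSpos : 0 < ∑ p ∈ PP Δ n N, (1 : ℝ) / p := lt_of_lt_of_le (by positivity) h1
  have hsec := second (PP Δ n N) (fun p hp => by
      classical
      unfold PP at hp
      rw [mem_filter] at hp
      exact hp.2.1.1) N (Nat.sqrt N) (fun p hp => by
      unfold PP at hp
      rw [mem_filter, mem_range] at hp
      omega) (Nat.sqrt_le_self N) hSpos
  set F := (Ioc 0 N).filter (fun D => ∀ p ∈ PP Δ n N, ¬ p ∣ D) with hF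
  have h2 : (F.card : ℝ) ≤ ε / 2 * N := by
    refine hsec.trans ?_
    rw [div_le_iff₀ hSpos]
    have h3 : 3 * (N : ℝ) = ε / 2 * N * (6 / ε) := by field_simp; ring
    rw [h3]
    exact mul_le_mul_of_nonneg_left h1 (by positivity)
  have hsub : {D : ℤ | D ≠ 0 ∧ |D| ≤ N ∧ ¬ Big Δ n N D} ⊆
      ((F.image (fun d : ℕ => (d : ℤ)) ∪ F.image (fun d : ℕ => -(d : ℤ)) : Finset ℤ) : Set ℤ) := by
    rintro D ⟨hD0, hDN, hB⟩
    have hF' : D.natAbs ∈ F := by
      rw [hF, mem_filter, mem_Ioc]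
      refine ⟨⟨Int.natAbs_pos.2 hD0, by rw [Int.abs_eq_natAbs] at hDN; omega⟩, fun p hp hpD => hB ?_⟩
      unfold PP at hp
      rw [mem_filter] at hp
      exact ⟨p, hp.2.1.1, Int.natCast_dvd.2 hpD, hp.2.2, hp.2.1.2⟩
    rw [mem_coe, mem_union, mem_image, mem_image]
    rcases Int.natAbs_eq D with h | h
    · exact Or.inl ⟨_, hF', h.symm⟩
    · exact Or.inr ⟨_, hF', h.symm⟩
  have h3 := Set.ncard_le_ncard hsub (finite_toSet _)
  rw [Set.ncard_coe_finset] at h3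
  have h4 : (F.image (fun d : ℕ => (d : ℤ)) ∪ F.image (fun d : ℕ => -(d : ℤ))).card ≤
      F.card + F.card := (card_union_le _ _).trans (Nat.add_le_add card_image_le card_image_le)
  have h5 : ((Set.ncard {D : ℤ | D ≠ 0 ∧ |D| ≤ N ∧ ¬ Big Δ n N D} : ℕ) : ℝ) ≤
      F.card + F.card := by exact_mod_cast h3.trans h4
  linarith

end Pool.Agent.K7.H99.BG
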